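import Pool.Agent.Helper82.GM.Core

/-!
# GM, block E2: the cone, from the block statements
-/

open MeasureTheory Real Set Filter Topology

set_option autoImplicit false

namespace Pool.Agent.Helper60.GM

open Pool.Agent.Helper22.AE
open Pool.Agent.Helper92.GC (dt tp Tq uu tt arc dd sqa m6)
open Pool.Agent.Helper92.DT (m12 IsMul12)
open Pool.Agent.Helper60.QL (nm Cone)
open Pool.Agent.Helper60.RT (R2 cn FR sp Pr prs ctr)

lemma card_cn82 (N : ℕ) : (cn N).card ≤ (4 * N + 1) ^ 2 := by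
  classical
  unfold cn sqa
  refine (Finset.card_filter_le _ _).trans ((Finset.card_filter_le _ _).trans (le_of_eq ?_))
  unfold box
  rw [Finset.card_product, Int.card_Icc]
  have : ((2 * N : ℕ) + 1 - (-((2 * N : ℕ) : ℤ))).toNat = 4 * N + 1 := by omega
  rw [this]
  ring

/-- number of levels -/
lemma lev_le82 {M n : ℕ} {K ε : ℝ} (hM : 2 ≤ M) (hK : 1 ≤ K) (hε : 0 < ε) (h : ((M : ℝ) ^ 5) ^ n ≤ K) : (n : ℝ) ≤ K ^ ε / ε := by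
  have hM2 : (2 : ℝ) ≤ M := by exact_mod_cast hM
  have h1 : Real.log (((M : ℝ) ^ 5) ^ n) ≤ Real.log K := Real.log_le_log (by positivity) h
  rw [← pow_mul, Real.log_pow] at h1
  have h2 := Real.log_le_rpow_div (by linarith : 0 ≤ K) hε
  have h3 : Real.log 2 ≤ Real.log M := Real.log_le_log (by norm_num) hM2
  have h4 : (0.69 : ℝ) ≤ Real.log 2 := by
    have := Real.log_two_gt_d9
    linarith
  have h5 : (n : ℝ) ≤ ((5 * n : ℕ) : ℝ) * Real.log M := by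
    push_cast
    have hn : (0 : ℝ) ≤ n := Nat.cast_nonneg n
    have h6 : (n : ℝ) * 0.69 ≤ n * Real.log M := mul_le_mul_of_nonneg_left (by linarith) hn
    linarith
  linarith

/-- arithmetic of the constants -/
lemma num82 {a cj m b κ q n e : ℝ} (ha : 0 ≤ a) (hcj : 1 ≤ cj) (hm : 1 ≤ m) (hb : 1 ≤ b) (hκ : 1 ≤ κ) (_he : 0 < e)
    (hq : q ≤ a + cj * (1 + m * (12 * b * κ + 7 * b))) (hn0 : 0 ≤ n) (hn : n ≤ κ / e) :
    (n + 2) * q ≤ ((2 + 1 / e) * (a + cj * (1 + 19 * (m * b)))) * κ ^ 2 := by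
  have hmb : 0 ≤ m * b := by positivity
  have h1 : q ≤ (a + cj * (1 + 19 * (m * b))) * κ := by
    refine hq.trans ?_
    have h2 : a ≤ a * κ := le_mul_of_one_le_right ha hκ
    have h3 : 1 + m * (12 * b * κ + 7 * b) ≤ (1 + 19 * (m * b)) * κ := by
      have : m * b ≤ m * b * κ := le_mul_of_one_le_right hmb hκ
      nlinarith
    have h4 := mul_le_mul_of_nonneg_left h3 (by linarith : 0 ≤ cj)
    nlinarith
  have h2 : n + 2 ≤ (2 + 1 / e) * κ := by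
    have : κ / e = 1 / e * κ := by ring
    rw [this] at hn
    nlinarith
  have h3 : 0 ≤ (a + cj * (1 + 19 * (m * b))) * κ := by positivity
  calc (n + 2) * q ≤ (n + 2) * ((a + cj * (1 + 19 * (m * b))) * κ) := mul_le_mul_of_nonneg_left h1 (by linarith)
    _ ≤ ((2 + 1 / e) * κ) * ((a + cj * (1 + 19 * (m * b))) * κ) := mul_le_mul_of_nonneg_right h2 h3
    _ = _ := by ring

/-- **E2**, from the statements of the other blocks -/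
theorem cone_bd82 {η B₀ B : ℝ} (hη : 0 < η) (hB₀ : 1 ≤ B₀) (hB : 1 ≤ B)
    (hRf : ∀ (F : Fam), F.Ok B₀ → ∀ (s₀ l X : ℝ) (S : Finset (ℤ × ℤ)) (g : ℤ × ℤ → ℕ × ℕ) (P : Finset (ℕ × ℕ)), (∀ k ∈ S, g k ∈ P) →
      RN F s₀ l B X S ≤ ENNReal.ofReal ((P.card : ℝ) ^ 11) * ∑ i ∈ P, RN F s₀ l B X (S.filter (fun k => g k = i)))
    (hRt : ∀ (F : Fam) (s₀ l X : ℝ) (S : Finset (ℤ × ℤ)), 0 < l → 0 ≤ X → RN F s₀ l B X S ≤ ENNReal.ofReal (2 * B * X * (S.card : ℝ) ^ 12))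
    (hsec : ∀ η : ℝ, 0 < η → ∃ C : ℝ, 1 ≤ C ∧ Sec82 η B₀ B C) (hbad : ∀ b : ℝ, 1 ≤ b → ∃ C : ℝ, 1 ≤ C ∧ Bad82 b C)
    (hcnt : ∃ C : ℝ, 1 ≤ C ∧ Cnt82 B₀ C)
    (hl : ∀ η ε₀ : ℝ, 0 < η → 0 < ε₀ → ∃ (M : ℕ) (C L : ℝ), 2 ≤ M ∧ 1 ≤ C ∧ 1 ≤ L ∧ Loc82 η ε₀ B₀ B M C L) :
    ∃ C : ℝ, 1 ≤ C ∧ ∀ (F : Fam), F.Ok B₀ → ∀ (X : ℝ) (N : ℕ), 1 ≤ X → 1 ≤ N → X ^ (1 / 10 : ℝ) ≤ N → (N : ℝ) ≤ X ^ (4 / 9 + 1 / 1000 : ℝ) →
      RN F (1 / 2) (1 / 2) B X (cn N) ≤ ENNReal.ofReal (C * X ^ η * FR X N) := by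
  obtain ⟨e, he⟩ : ∃ e : ℝ, e = η / 96 := ⟨_, rfl⟩
  have he0 : 0 < e := by rw [he]; positivity
  obtain ⟨M, CL, L, hM, hCL, hL1, hloc⟩ := hl (η / 2) e (by positivity) he0
  have hM1 : (1 : ℝ) < M := by exact_mod_cast (by omega : 1 < M)
  obtain ⟨Cs, hCs, hs⟩ := hsec (η / 2) (by positivity)
  obtain ⟨Cb, hCb, hb⟩ := hbad (6 ^ 5 * (M : ℝ) ^ 5) (by
    have : (1 : ℝ) ≤ (M : ℝ) ^ 5 := one_le_pow₀ hM1.le
    linarith)
  obtain ⟨Cj, hCj, hj⟩ := hcnt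
  obtain ⟨ms, hms⟩ := pow_unbounded_of_one_lt (max L 3) hM1
  have hmsL : L ≤ (M : ℝ) ^ ms := (le_max_left _ _).trans hms.le
  have hms3 : 3 ≤ (M : ℝ) ^ ms := (le_max_right _ _).trans hms.le
  obtain ⟨K₀, hK₀⟩ : ∃ K₀ : ℝ, K₀ = ((M : ℝ) ^ 5) ^ ms := ⟨_, rfl⟩
  have hK₀1 : 1 ≤ K₀ := by rw [hK₀]; exact one_le_pow₀ (one_le_pow₀ hM1.le)
  obtain ⟨C₂, hC₂⟩ : ∃ C₂ : ℝ, C₂ = (2 + 1 / e) * ((M : ℝ) ^ ms + Cj * (1 + 19 * (M * B₀))) := ⟨_, rfl⟩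
  have hC₂0 : 0 ≤ C₂ := by rw [hC₂]; positivity
  have hD1 : 1 ≤ 2 * B * (25 * K₀ ^ 2) ^ 12 := by
    have h1 : 1 ≤ K₀ ^ 2 := one_le_pow₀ hK₀1
    have h2 : (1 : ℝ) ≤ (25 * K₀ ^ 2) ^ 12 := one_le_pow₀ (by linarith)
    nlinarith
  have hE0 : 0 ≤ 2 * C₂ ^ 12 * (CL + Cs * Cb) := by positivity
  refine ⟨2 * C₂ ^ 12 * (CL + Cs * Cb) + 2 * B * (25 * K₀ ^ 2) ^ 12, by linarith, fun F hF X N hX hN hlo hhi => ?_⟩
  have hN1 : (1 : ℝ) ≤ N := by exact_mod_cast hN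
  have hX0 : 0 < X := by linarith
  have hXN : 1 ≤ X * N := by nlinarith
  have hNX : (N : ℝ) ≤ X := hhi.trans (by
    conv_rhs => rw [← Real.rpow_one X]
    exact Real.rpow_le_rpow_of_exponent_le hX (by norm_num))
  have hXη : 1 ≤ X ^ η := Real.one_le_rpow hX hη.le
  have hFR0 : 0 ≤ FR X N := FR_nonneg82 (by linarith) (by linarith)
  have hFR1 : X ≤ FR X N := by
    unfold FR
    have h1 : (1 : ℝ) ≤ (N : ℝ) ^ 12 := one_le_pow₀ hN1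
    have h2 : 0 ≤ (N : ℝ) ^ 15 * X ^ (-(1 / 3) : ℝ) := by positivity
    nlinarith
  rcases lt_or_ge (X * N) K₀ with hsm | hbg
  · -- small parameters
    refine (hRt F (1 / 2) (1 / 2) X (cn N) (by norm_num) hX0.le).trans (ENNReal.ofReal_le_ofReal ?_)
    have hNK : (N : ℝ) ≤ K₀ := by nlinarith
    have h1 : ((cn N).card : ℝ) ≤ 25 * K₀ ^ 2 := by
      have h2 : ((cn N).card : ℝ) ≤ (4 * N + 1) ^ 2 := by exact_mod_cast card_cn82 N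
      have h3 : (4 * (N : ℝ) + 1) ^ 2 ≤ (5 * K₀) ^ 2 := pow_le_pow_left₀ (by positivity) (by linarith) 2
      linarith [h2, h3, (by ring : (5 * K₀) ^ 2 = 25 * K₀ ^ 2)]
    have h4 : ((cn N).card : ℝ) ^ 12 ≤ (25 * K₀ ^ 2) ^ 12 := pow_le_pow_left₀ (by positivity) h1 12
    have h5 : 2 * B * X * ((cn N).card : ℝ) ^ 12 ≤ 2 * B * X * (25 * K₀ ^ 2) ^ 12 := mul_le_mul_of_nonneg_left h4 (by positivity)
    have h6 : X ≤ X ^ η * FR X N := by nlinarith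
    have h7 : 2 * B * X * (25 * K₀ ^ 2) ^ 12 ≤ 2 * B * (25 * K₀ ^ 2) ^ 12 * (X ^ η * FR X N) := by
      have h8 := mul_le_mul_of_nonneg_left h6 (by linarith : 0 ≤ 2 * B * (25 * K₀ ^ 2) ^ 12)
      linarith
    have h9 : 0 ≤ 2 * C₂ ^ 12 * (CL + Cs * Cb) * (X ^ η * FR X N) := by positivity
    calc _ ≤ 2 * B * X * (25 * K₀ ^ 2) ^ 12 := h5
      _ ≤ 2 * B * (25 * K₀ ^ 2) ^ 12 * (X ^ η * FR X N) := h7
      _ ≤ (2 * C₂ ^ 12 * (CL + Cs * Cb) + 2 * B * (25 * K₀ ^ 2) ^ 12) * (X ^ η * FR X N) := by linarith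
      _ = _ := by ring
  · -- the decomposition
    obtain ⟨n, hn1, hn2⟩ := exists_nat_pow_near hXN (one_lt_pow₀ hM1 (by norm_num : (5 : ℕ) ≠ 0))
    have hmn : ms ≤ n := by
      by_contra hcon
      have h1 : ((M : ℝ) ^ 5) ^ (n + 1) ≤ ((M : ℝ) ^ 5) ^ ms := pow_le_pow_right₀ (one_le_pow₀ hM1.le) (by omega)
      rw [← hK₀] at h1
      linarith
    obtain ⟨κ, hκ⟩ : ∃ κ : ℝ, κ = (X * N) ^ e := ⟨_, rfl⟩
    have hκ1 : 1 ≤ κ := by rw [hκ]; exact Real.one_le_rpow hXN he0.le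
    obtain ⟨Q₀, hQ₀⟩ : ∃ Q₀ : ℕ, Q₀ = ⌊(M : ℝ) ^ ms + Cj * (1 + M * (12 * B₀ * (X * N) ^ e + 7 * B₀))⌋₊ := ⟨_, rfl⟩
    have hQa : (M : ℝ) ^ ms + Cj * (1 + M * (12 * B₀ * (X * N) ^ e + 7 * B₀)) < (Q₀ : ℝ) + 1 := by
      rw [hQ₀]; exact Nat.lt_floor_add_one _
    have hQb : (Q₀ : ℝ) ≤ (M : ℝ) ^ ms + Cj * (1 + M * (12 * B₀ * κ + 7 * B₀)) := by
      rw [hQ₀, hκ]
      exact Nat.floor_le (by positivity)
    have hcore := core82 (η := η / 2) (ε₀ := e) hF hM hloc hs hb hj hCL hL1 hCs hCb hCj he0.le (hRf F hF) hmsL hms3 hmn hX hN hlo hhi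
      (by rw [pow_mul]; exact hn1) (by
        have e1 : 5 * n + 5 = 5 * (n + 1) := by ring
        rw [e1, pow_mul]; exact hn2) hQa
    refine hcore.trans ?_
    obtain ⟨W, hW⟩ : ∃ W : ℕ, W = (n + 2) * Q₀ := ⟨_, rfl⟩
    rw [← hW]
    have hWb : (W : ℝ) ≤ C₂ * κ ^ 2 := by
      have h1 := num82 (a := (M : ℝ) ^ ms) (by positivity) hCj hM1.le hB₀ hκ1 he0 hQb (Nat.cast_nonneg n)
        (by rw [hκ]; exact lev_le82 hM hXN he0 hn1)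
      rw [hW, hC₂]
      push_cast
      exact h1
    have hκ24 : κ ^ 24 ≤ X ^ (η / 2) := by
      have h1 : κ ^ 24 = (X * N) ^ (η / 4) := by
        rw [hκ, ← Real.rpow_natCast, ← Real.rpow_mul (by linarith), he]
        congr 1
        push_cast
        ring
      have h2 : (X * N) ^ (η / 4) ≤ (X * X) ^ (η / 4) := Real.rpow_le_rpow (by linarith) (by nlinarith) (by positivity)
      have h3 : (X * X) ^ (η / 4) = X ^ (η / 2) := by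
        rw [Real.mul_rpow hX0.le hX0.le, ← Real.rpow_add hX0]
        congr 1
        ring
      rw [h1, ← h3]
      exact h2
    have hW12 : (W : ℝ) ^ 12 ≤ C₂ ^ 12 * X ^ (η / 2) := by
      have h1 := pow_le_pow_left₀ (Nat.cast_nonneg W) hWb 12
      rw [mul_pow, ← pow_mul] at h1
      exact h1.trans (mul_le_mul_of_nonneg_left hκ24 (by positivity))
    rw [← ENNReal.ofReal_natCast W, ← ENNReal.ofReal_mul (by positivity), ← ENNReal.ofReal_mul (by positivity),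
      ← ENNReal.ofReal_mul (by norm_num)]
    apply ENNReal.ofReal_le_ofReal
    obtain ⟨V, hV⟩ : ∃ V : ℝ, V = (CL + Cs * Cb) * X ^ (η / 2) * FR X N := ⟨_, rfl⟩
    rw [← hV]
    have hV0 : 0 ≤ V := by rw [hV]; positivity
    have e1 : 2 * ((W : ℝ) ^ 11 * (W * V)) = 2 * ((W : ℝ) ^ 12 * V) := by ring
    have e2 : X ^ (η / 2) * X ^ (η / 2) = X ^ η := by
      rw [← Real.rpow_add hX0]
      congr 1
      ring
    rw [e1]
    have h2 : 2 * ((W : ℝ) ^ 12 * V) ≤ 2 * ((C₂ ^ 12 * X ^ (η / 2)) * V) :=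
      mul_le_mul_of_nonneg_left (mul_le_mul_of_nonneg_right hW12 hV0) (by norm_num)
    refine h2.trans ?_
    have e3 : 2 * ((C₂ ^ 12 * X ^ (η / 2)) * V) = 2 * C₂ ^ 12 * (CL + Cs * Cb) * X ^ η * FR X N := by
      rw [hV, ← e2]
      ring
    rw [e3]
    have h9 : 0 ≤ 2 * B * (25 * K₀ ^ 2) ^ 12 * X ^ η * FR X N := by positivity
    linarith

end Pool.Agent.Helper60.GM
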