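import Pool.Agent.Helper60.GM.Loc
import Pool.Agent.Helper58.GM.B
import Pool.Agent.Helper58.GM.CountJ
import Pool.Agent.Helper47.GM.Q3
import Pool.Agent.Helper77.GM.Num
import Pool.Agent.Helper82.GM.ConeOf

/-!
# GM, block E2: the cone, by a Whitney decomposition around the zeros of `J`
-/

open MeasureTheory Real Set Filter Topology

set_option autoImplicit false

namespace Pool.Agent.Helper60.GM

open Pool.Agent.Helper22.AE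
open Pool.Agent.Helper92.GC (dt tp Tq uu tt arc dd sqa m6)
open Pool.Agent.Helper92.DT (m12 IsMul12)
open Pool.Agent.Helper60.LT (Fr Tf xf yf df vf fr ac co Cut BB PP)
open Pool.Agent.Helper60.QL (nm Cone)
open Pool.Agent.Helper60.RT (R2 cn FR sp Pr prs ctr lf2 ln2 Dec12)

lemma cnt82 {B₀ : ℝ} (hB₀ : 1 ≤ B₀) : ∃ C : ℝ, 1 ≤ C ∧ Cnt82 B₀ C := by
  classical
  obtain ⟨C, hC, h⟩ := countJ hB₀
  refine ⟨C, hC, fun F hF s θ Q hs hθ hQ P hP => ?_⟩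
  refine le_trans ?_ (h F hF s θ Q hs hθ hQ)
  have hsub : P ⊆ (Finset.range Q).filter (fun r => |ctr Q r| ≤ 12 ∧ |F.J s (ctr Q r)| ≤ θ) := by
    intro r hr
    obtain ⟨h1, h2, h3⟩ := hP r hr
    exact Finset.mem_filter.2 ⟨Finset.mem_range.2 h1, h2, h3⟩
  exact_mod_cast (Finset.card_le_card hsub).trans (le_of_eq (by congr))

/-- E2: the cone, by a Whitney decomposition around the zeros of `J` -/
theorem cone_bdG {η B₀ B : ℝ} (hη : 0 < η) (hB₀ : 1 ≤ B₀) (hB : 1 ≤ B)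
    (hl : ∀ η ε₀ : ℝ, 0 < η → 0 < ε₀ → ∃ (M : ℕ) (C L : ℝ), 2 ≤ M ∧ 1 ≤ C ∧ 1 ≤ L ∧ LocG η ε₀ B₀ B M C L) :
    ∃ C : ℝ, 1 ≤ C ∧ ∀ (F : Fam), F.Ok B₀ → ∀ (X : ℝ) (N : ℕ), 1 ≤ X → 1 ≤ N → X ^ (1 / 10 : ℝ) ≤ N → (N : ℝ) ≤ X ^ (4 / 9 + 1 / 1000 : ℝ) →
      RN F (1 / 2) (1 / 2) B X (cn N) ≤ ENNReal.ofReal (C * X ^ η * FR X N) :=
  cone_bd82 hη hB₀ hB (fun F hF s₀ l X S g P hP => RN_fib hF s₀ l B X S g P hP)
    (fun F s₀ l X S hl' hX => RN_triv hl' hB hX S) (fun η hη => sec_bdG hη hB₀ hB) (fun b hb => num_bad hb) (cnt82 hB₀) hl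

end Pool.Agent.Helper60.GM
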