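import Pool.Agent.Helper82.GM.Geo

/-!
# GM, block E2: the Whitney decomposition for large `X N`
-/

open MeasureTheory Real Set Filter Topology

set_option autoImplicit false

namespace Pool.Agent.Helper60.GM

open Pool.Agent.Helper22.AE
open Pool.Agent.Helper92.GC (dt tp Tq uu tt arc dd sqa m6)
open Pool.Agent.Helper92.DT (m12 IsMul12)
open Pool.Agent.Helper60.QL (nm Cone)
open Pool.Agent.Helper60.RT (R2 cn FR sp Pr prs ctr)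

/-- the arc `r` is good in the box `i` -/
def G82 (F : Fam) (θ : ℝ) (M m i r : ℕ) : Prop := θ ≤ (M : ℝ) ^ m * |F.J (sc82 M m i) (ctr (M ^ m) r)|

open Classical in
/-- candidates for the pieces of level `m` -/
noncomputable def A82 (F : Fam) (θ θ' : ℝ) (M ms n m i : ℕ) : Finset ℕ :=
  (Finset.range (M ^ (min m n))).filter (fun r => (m ≤ n → G82 F θ M m i r) ∧
    (ms < m → |F.J (sc82 M (min m n) i) (ctr (M ^ (min m n)) r)| ≤ θ' / (M : ℝ) ^ (min m n)))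

lemma mem_A82 {F : Fam} {θ θ' : ℝ} {M ms n m i r : ℕ} : r ∈ A82 F θ θ' M ms n m i ↔ r < M ^ (min m n) ∧
    (m ≤ n → G82 F θ M m i r) ∧
    (ms < m → |F.J (sc82 M (min m n) i) (ctr (M ^ (min m n)) r)| ≤ θ' / (M : ℝ) ^ (min m n)) := by
  classical
  unfold A82
  rw [Finset.mem_filter, Finset.mem_range]

lemma hA82 {F : Fam} {B₀ θ : ℝ} (hF : F.Ok B₀) (hθ : 0 ≤ θ) {M ms n i : ℕ} (hM : 1 ≤ M) (hms : ms ≤ n) (hi : i < M ^ n)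
    {p : ℕ × ℕ} (hp : p ∈ ps82 (G82 F θ M) M ms n i) : p.2 ∈ A82 F θ (M * (θ + 7 * B₀)) M ms n p.1 (i / M ^ (n - p.1)) := by
  obtain ⟨h1, h2, h3, h4, h5, h6⟩ := ps_prop82 hM (by omega) hp
  rw [mem_A82]
  refine ⟨h3, h4, fun hlt => ?_⟩
  have hM0 : (0 : ℝ) < M := by exact_mod_cast hM
  have hM1 : (1 : ℝ) ≤ M := by exact_mod_cast hM
  have hB := hF.B1
  rcases Nat.lt_or_ge n p.1 with hn | hn
  · have e : p.1 = n + 1 := by omega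
    have e1 : min p.1 n = n := by omega
    have e2 : n - p.1 = 0 := by omega
    rw [e1, e2, pow_zero, Nat.div_one]
    have h7 := h6 hms e
    unfold G82 at h7
    rw [not_le] at h7
    rw [le_div_iff₀ (by positivity)]
    have h8 : θ ≤ M * (θ + 7 * B₀) := by nlinarith
    linarith
  · have e1 : min p.1 n = p.1 := by omega
    rw [e1] at h3 ⊢
    have hi' : i / M ^ (n - p.1) < M ^ p.1 := by
      rw [Nat.div_lt_iff_lt_mul (Nat.pos_of_ne_zero (by positivity)), ← pow_add]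
      have : p.1 + (n - p.1) = n := by omega
      rw [this]
      exact hi
    exact small82 hF hM (by omega) hi' h3 (h5 hlt hn)

/-- the moment of a good sector (the same as `LocG`) -/
def Loc82 (η ε₀ B₀ B : ℝ) (M : ℕ) (C L : ℝ) : Prop :=
  ∀ (F : Fam), F.Ok B₀ → ∀ (X σ s₀ : ℝ) (N m₀ r₀ : ℕ), 1 ≤ X → 1 ≤ N → X ^ (1 / 10 : ℝ) ≤ N → (N : ℝ) ≤ X ^ (4 / 9 + 1 / 1000 : ℝ) → 0 < σ → Gd F s₀ σ 4 (arc 0 (cn N) (M ^ m₀) r₀) →
    (X * N) ^ ε₀ ≤ σ * (M : ℝ) ^ m₀ → (M : ℝ) ^ (5 * m₀) ≤ X * N → In s₀ (L / (M : ℝ) ^ m₀) →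
      RN F s₀ (1 / (M : ℝ) ^ m₀) B X (arc 0 (cn N) (M ^ m₀) r₀) ≤ ENNReal.ofReal (C * X ^ η * FR X N)

/-- the counting statement -/
def Cnt82 (B₀ C : ℝ) : Prop := ∀ F : Fam, F.Ok B₀ → ∀ (s θ : ℝ) (Q : ℕ), s ∈ Icc (-1 : ℝ) 2 → 0 ≤ θ → 1 ≤ Q →
  ∀ P : Finset ℕ, (∀ r ∈ P, r < Q ∧ |ctr Q r| ≤ 12 ∧ |F.J s (ctr Q r)| ≤ θ) → (P.card : ℝ) ≤ C * (1 + θ * Q)

lemma card_A82 {F : Fam} {B₀ θ θ' Cj : ℝ} (hF : F.Ok B₀) (hcnt : Cnt82 B₀ Cj) (hθ' : 0 ≤ θ') (hCj : 1 ≤ Cj) {M ms n m i : ℕ} (hM : 1 ≤ M)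
    (hms : ms ≤ n) (hm : ms ≤ m) (hi : i < M ^ (min m n)) :
    ((A82 F θ θ' M ms n m i).card : ℝ) ≤ (M : ℝ) ^ ms + Cj * (1 + θ') := by
  have hM0 : (0 : ℝ) < M := by exact_mod_cast hM
  rcases hm.eq_or_lt with h | h
  · have h1 : (A82 F θ θ' M ms n m i).card ≤ M ^ (min m n) := by
      refine (Finset.card_le_card (fun r hr => Finset.mem_range.2 (mem_A82.1 hr).1)).trans (le_of_eq (Finset.card_range _))
    have e : min m n = ms := by omega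
    rw [e] at h1
    have h2 : ((A82 F θ θ' M ms n m i).card : ℝ) ≤ (M : ℝ) ^ ms := by exact_mod_cast h1
    have h3 : 0 ≤ Cj * (1 + θ') := by positivity
    linarith
  · have h1 := hcnt F hF (sc82 M (min m n) i) (θ' / (M : ℝ) ^ (min m n)) (M ^ (min m n)) (sc_icc82 hM hi) (by positivity)
      (Nat.one_le_iff_ne_zero.2 (by positivity)) (A82 F θ θ' M ms n m i) (fun r hr => by
        obtain ⟨h1, _, h3⟩ := mem_A82.1 hr
        exact ⟨h1, (ctr_bd82 h1).trans (by norm_num), h3 h⟩)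
    push_cast at h1
    rw [div_mul_cancel₀ _ (by positivity)] at h1
    have h3 : (0 : ℝ) ≤ (M : ℝ) ^ ms := by positivity
    linarith

/-- the bound for sets of slopes with small range -/
def Sec82 (η B₀ B C : ℝ) : Prop := ∀ (F : Fam), F.Ok B₀ → ∀ (X : ℝ) (N : ℕ) (W D τ s₀ l : ℝ) (S : Finset (ℤ × ℤ)), 1 ≤ X → 1 ≤ N →
    (N : ℝ) ≤ X → 0 ≤ W → W ≤ 2 → 1 ≤ D → In s₀ l → S ⊆ cn N → (∀ k ∈ S, |tt 0 k - τ| ≤ W) → (∀ k ∈ S, D * (Int.gcd k.1 k.2 : ℝ) ≤ k.1) →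
      RN F s₀ l B X S ≤ ENNReal.ofReal (C * X ^ (1 + η) * (N ^ 2 * W + N / D) ^ 7 * (N ^ 2 * W + (N / D) ^ 2) ^ 2 * (1 + N ^ 3 / X))

/-- the numerical inequality for the bad arcs -/
def Bad82 (b C : ℝ) : Prop := ∀ (X N W : ℝ), 1 ≤ X → 1 ≤ N → X ^ (1 / 10 : ℝ) ≤ N → N ≤ X ^ (4 / 9 + 1 / 1000 : ℝ) → 0 ≤ W → W ^ 5 * (X * N) ≤ b →
      X * ((N ^ 2 * W + N) ^ 7 * (N ^ 2 * W + N ^ 2) ^ 2 * (1 + N ^ 3 / X)) ≤ C * FR X N

lemma FR_nonneg82 {X N : ℝ} (hX : 0 ≤ X) (hN : 0 ≤ N) : 0 ≤ FR X N := by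
  unfold FR
  positivity

/-- a good piece -/
lemma good_bd82 {η ε₀ B₀ B C L : ℝ} {F : Fam} (hF : F.Ok B₀) {M ms m i r : ℕ} (hM : 2 ≤ M) (hloc : Loc82 η ε₀ B₀ B M C L)
    (hL : L ≤ (M : ℝ) ^ ms) (hL1 : 1 ≤ L) (hm : ms ≤ m) (hi : i < M ^ m) (hr : r < M ^ m) {X : ℝ} {N : ℕ} (hX : 1 ≤ X) (hN : 1 ≤ N)
    (hlo : X ^ (1 / 10 : ℝ) ≤ N) (hhi : (N : ℝ) ≤ X ^ (4 / 9 + 1 / 1000 : ℝ)) (h5 : (M : ℝ) ^ (5 * m) ≤ X * N)
    (hg : G82 F (12 * B₀ * (X * N) ^ ε₀) M m i r) (hK : 1 ≤ (X * N) ^ ε₀) :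
    RN F (sc82 M m i) (1 / (M : ℝ) ^ m) B X (arc 0 (cn N) (M ^ m) r) ≤ ENNReal.ofReal (C * X ^ η * FR X N) := by
  have hM0 : (0 : ℝ) < M := by positivity
  have hM1 : (1 : ℝ) ≤ M := by exact_mod_cast (by omega : 1 ≤ M)
  have hB := hF.B1
  unfold G82 at hg
  have hp : (0 : ℝ) < (M : ℝ) ^ m := by positivity
  have hθ : 12 * B₀ ≤ 12 * B₀ * (X * N) ^ ε₀ := by nlinarith
  have hBK : (X * N) ^ ε₀ ≤ B₀ * (X * N) ^ ε₀ := by nlinarith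
  have hJ : 0 < |F.J (sc82 M m i) (ctr (M ^ m) r)| := by
    by_contra hcon
    have h0 : |F.J (sc82 M m i) (ctr (M ^ m) r)| = 0 := le_antisymm (not_lt.1 hcon) (abs_nonneg _)
    rw [h0, mul_zero] at hg
    linarith
  refine hloc F hF X _ (sc82 M m i) N m r hX hN hlo hhi (by linarith : 0 < |F.J (sc82 M m i) (ctr (M ^ m) r)| / 2)
    (gd82 hF (by omega) hi hr hθ hg) ?_ h5 ?_
  · have : |F.J (sc82 M m i) (ctr (M ^ m) r)| / 2 * (M : ℝ) ^ m = (M : ℝ) ^ m * |F.J (sc82 M m i) (ctr (M ^ m) r)| / 2 := by ring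
    rw [this]
    linarith
  · obtain ⟨s1, s2⟩ := sc_mem82 (by omega : 1 ≤ M) hi
    have h1 : L / (M : ℝ) ^ m ≤ 1 := by
      rw [div_le_one hp]
      exact hL.trans (pow_le_pow_right₀ hM1 hm)
    exact ⟨by positivity, by linarith, by linarith⟩

/-- a bad piece -/
lemma bad_bd82 {η B₀ B Cs Cb : ℝ} {F : Fam} (hF : F.Ok B₀) {M ms n i r : ℕ} (hM : 2 ≤ M) (hsec : Sec82 η B₀ B Cs)
    (hbad : Bad82 (6 ^ 5 * (M : ℝ) ^ 5) Cb) (hCs : 1 ≤ Cs) (hms : 3 ≤ (M : ℝ) ^ ms) (hn : ms ≤ n) (hi : i < M ^ n)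
    {X : ℝ} {N : ℕ} (hX : 1 ≤ X) (hN : 1 ≤ N)
    (hlo : X ^ (1 / 10 : ℝ) ≤ N) (hhi : (N : ℝ) ≤ X ^ (4 / 9 + 1 / 1000 : ℝ)) (h5 : X * N < (M : ℝ) ^ (5 * n + 5)) :
    RN F (sc82 M n i) (1 / (M : ℝ) ^ n) B X (arc 0 (cn N) (M ^ n) r) ≤ ENNReal.ofReal (Cs * Cb * X ^ η * FR X N) := by
  have hM0 : (0 : ℝ) < M := by positivity
  have hM1 : (1 : ℝ) ≤ M := by exact_mod_cast (by omega : 1 ≤ M)
  have hp : (0 : ℝ) < (M : ℝ) ^ n := by positivity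
  have hX0 : 0 < X := by linarith
  have hp3 : 3 ≤ (M : ℝ) ^ n := hms.trans (pow_le_pow_right₀ hM1 hn)
  have hNX : (N : ℝ) ≤ X := hhi.trans (by
    conv_rhs => rw [← Real.rpow_one X]
    exact Real.rpow_le_rpow_of_exponent_le hX (by norm_num))
  obtain ⟨s1, s2⟩ := sc_mem82 (by omega : 1 ≤ M) hi
  have hin : In (sc82 M n i) (1 / (M : ℝ) ^ n) := by
    have h1 : 1 / (M : ℝ) ^ n ≤ 1 := by
      rw [div_le_one hp]
      linarith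
    exact ⟨by positivity, by linarith, by linarith⟩
  have h1 := hsec F hF X N (6 / (M : ℝ) ^ n) 1 (ctr (M ^ n) r) (sc82 M n i) (1 / (M : ℝ) ^ n) (arc 0 (cn N) (M ^ n) r)
    hX hN hNX (by positivity) (by
      rw [div_le_iff₀ hp]
      linarith) le_rfl hin (fun k hk => (arc_sl82 (by omega : 1 ≤ M) hk).1) (fun k hk => (arc_sl82 (by omega : 1 ≤ M) hk).2)
    (fun k hk => by
      have h0 := (cn_tt82 (arc_sl82 (by omega : 1 ≤ M) hk).1).1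
      rw [one_mul]
      have : (Int.gcd k.1 k.2 : ℤ) ≤ k.1 := Int.le_of_dvd h0 (Int.gcd_dvd_left _ _)
      exact_mod_cast this)
  refine h1.trans (ENNReal.ofReal_le_ofReal ?_)
  have h2 := hbad X N (6 / (M : ℝ) ^ n) hX (by exact_mod_cast hN) hlo hhi (by positivity) (by
    rw [div_pow, ← pow_mul, mul_comm n 5, div_mul_eq_mul_div, div_le_iff₀ (by positivity), mul_assoc]
    refine mul_le_mul_of_nonneg_left ?_ (by norm_num)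
    rw [← pow_add, add_comm]
    exact h5.le)
  rw [div_one, Real.rpow_add hX0, Real.rpow_one]
  have h3 : 0 ≤ Cs * X ^ η := by positivity
  have h4 := mul_le_mul_of_nonneg_left h2 h3
  calc _ = Cs * X ^ η * (X * (((N : ℝ) ^ 2 * (6 / (M : ℝ) ^ n) + N) ^ 7 * ((N : ℝ) ^ 2 * (6 / (M : ℝ) ^ n) + (N : ℝ) ^ 2) ^ 2 * (1 + (N : ℝ) ^ 3 / X))) := by ring
    _ ≤ Cs * X ^ η * (Cb * FR X N) := h4
    _ = _ := by ring

/-- **the decomposition** -/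
theorem core82 {η ε₀ B₀ B CL L Cs Cb Cj : ℝ} {F : Fam} (hF : F.Ok B₀) {M ms n : ℕ} (hM : 2 ≤ M) (hloc : Loc82 η ε₀ B₀ B M CL L)
    (hsec : Sec82 η B₀ B Cs) (hbad : Bad82 (6 ^ 5 * (M : ℝ) ^ 5) Cb) (hcnt : Cnt82 B₀ Cj) (hCL : 1 ≤ CL) (hL1 : 1 ≤ L) (hCs : 1 ≤ Cs)
    (hCb : 1 ≤ Cb) (hCj : 1 ≤ Cj) (hε₀ : 0 ≤ ε₀)
    (hRf : ∀ (s₀ l X : ℝ) (S : Finset (ℤ × ℤ)) (g : ℤ × ℤ → ℕ × ℕ) (P : Finset (ℕ × ℕ)), (∀ k ∈ S, g k ∈ P) →
      RN F s₀ l B X S ≤ ENNReal.ofReal ((P.card : ℝ) ^ 11) * ∑ i ∈ P, RN F s₀ l B X (S.filter (fun k => g k = i)))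
    (hL : L ≤ (M : ℝ) ^ ms) (h3 : 3 ≤ (M : ℝ) ^ ms) (hms : ms ≤ n) {X : ℝ} {N : ℕ} (hX : 1 ≤ X) (hN : 1 ≤ N)
    (hlo : X ^ (1 / 10 : ℝ) ≤ N) (hhi : (N : ℝ) ≤ X ^ (4 / 9 + 1 / 1000 : ℝ)) (h5 : (M : ℝ) ^ (5 * n) ≤ X * N)
    (h5' : X * N < (M : ℝ) ^ (5 * n + 5)) {Q₀ : ℕ}
    (hQ₀ : (M : ℝ) ^ ms + Cj * (1 + M * (12 * B₀ * (X * N) ^ ε₀ + 7 * B₀)) < (Q₀ : ℝ) + 1) :
    RN F (1 / 2) (1 / 2) B X (cn N) ≤ ENNReal.ofReal 2 * (ENNReal.ofReal ((((n + 2) * Q₀ : ℕ) : ℝ) ^ 11) *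
      ((((n + 2) * Q₀ : ℕ) : ENNReal) * ENNReal.ofReal ((CL + Cs * Cb) * X ^ η * FR X N))) := by
  have hM1 : 1 ≤ M := by omega
  have hM0 : (0 : ℝ) < M := by positivity
  have hMr : (1 : ℝ) ≤ M := by exact_mod_cast hM1
  have hB := hF.B1
  have hN1 : (1 : ℝ) ≤ N := by exact_mod_cast hN
  have hXN : 1 ≤ X * N := by nlinarith
  have hK : 1 ≤ (X * N) ^ ε₀ := Real.one_le_rpow hXN hε₀
  obtain ⟨θ, hθ⟩ : ∃ θ : ℝ, θ = 12 * B₀ * (X * N) ^ ε₀ := ⟨_, rfl⟩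
  have hθ0 : 0 ≤ θ := by rw [hθ]; positivity
  obtain ⟨θ', hθ'⟩ : ∃ θ' : ℝ, θ' = M * (θ + 7 * B₀) := ⟨_, rfl⟩
  have hθ'0 : 0 ≤ θ' := by rw [hθ']; positivity
  rw [← hθ, ← hθ'] at hQ₀
  have hFR : 0 ≤ FR X N := FR_nonneg82 (by linarith) (by linarith)
  have hXη : 0 ≤ X ^ η := by positivity
  have hw := whit82 (f := fun S s => ∫⁻ r in Icc (X / B) (B * X), ENNReal.ofReal (mf F S r s)) (G := G82 F θ M) (M := M) (ms := ms)
    (n := n) (Q₀ := Q₀) (S := cn N) hM1 hms (A := A82 F θ θ' M ms n)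
    (fun i hi p hp => by rw [hθ']; exact hA82 hF hθ0 hM1 hms hi hp)
    (fun m hm _ i hi => by
      have h := card_A82 (θ := θ) hF hcnt hθ'0 hCj hM1 hms hm hi
      have h2 : ((A82 F θ θ' M ms n m i).card : ℝ) < (Q₀ : ℝ) + 1 := lt_of_le_of_lt h hQ₀
      have h6 : (A82 F θ θ' M ms n m i).card < Q₀ + 1 := by exact_mod_cast h2
      omega)
    (V := ENNReal.ofReal ((CL + Cs * Cb) * X ^ η * FR X N))
    (fun m hm hmn i hi r hr => by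
      obtain ⟨r1, r2, _⟩ := mem_A82.1 hr
      apply box_le82 hM1
      rcases Nat.lt_or_ge n m with hn | hn
      · have e : min m n = n := by omega
        rw [e] at hi r1 ⊢
        refine (bad_bd82 hF hM hsec hbad hCs h3 hms hi hX hN hlo hhi h5').trans (ENNReal.ofReal_le_ofReal ?_)
        have : 0 ≤ CL * X ^ η * FR X N := by positivity
        nlinarith
      · have e : min m n = m := by omega
        rw [e] at hi r1 ⊢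
        have hg := r2 hn
        rw [hθ] at hg
        refine (good_bd82 hF hM hloc hL hL1 hm hi r1 hX hN hlo hhi (le_trans (pow_le_pow_right₀ hMr (by omega)) h5) hg hK).trans
          (ENNReal.ofReal_le_ofReal ?_)
        have : 0 ≤ Cs * Cb * X ^ η * FR X N := by positivity
        nlinarith)
    (fun i hi g P hP => by
      have h := hRf (sc82 M n i) (1 / (2 * (M : ℝ) ^ n)) X (cn N) g P hP
      unfold RN at h
      have hp : (0 : ℝ) < (M : ℝ) ^ n := by positivity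
      have e1 : sc82 M n i - 1 / (2 * (M : ℝ) ^ n) = (i : ℝ) / (M : ℝ) ^ n := by
        unfold sc82
        field_simp
        ring
      have e2 : sc82 M n i + 1 / (2 * (M : ℝ) ^ n) = ((i : ℝ) + 1) / (M : ℝ) ^ n := by
        unfold sc82
        field_simp
        ring
      rw [e1, e2, ← Finset.mul_sum, mul_left_comm] at h
      have hc : ENNReal.ofReal (1 / (2 * (M : ℝ) ^ n))⁻¹ ≠ 0 := by
        rw [Ne, ENNReal.ofReal_eq_zero, not_le]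
        positivity
      exact (ENNReal.mul_le_mul_iff_right hc ENNReal.ofReal_ne_top).1 h)
    (fun k hk => ix_lt82 hM1 hk)
  have e3 : RN F (1 / 2) (1 / 2) B X (cn N) = ENNReal.ofReal 2 *
      ∫⁻ s in Icc (0 : ℝ) 1, ∫⁻ r in Icc (X / B) (B * X), ENNReal.ofReal (mf F (cn N) r s) := by
    unfold RN
    norm_num
  rw [e3]
  exact mul_le_mul' le_rfl hw

end Pool.Agent.Helper60.GM
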