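import Pool.Agent.Helper82.GM.Wh

/-!
# GM, block E2: geometry of the boxes and arcs
-/

open MeasureTheory Real Set Filter Topology

set_option autoImplicit false

namespace Pool.Agent.Helper60.GM

open Pool.Agent.Helper22.AE
open Pool.Agent.Helper92.GC (dt tp Tq uu tt arc dd sqa m6)
open Pool.Agent.Helper92.DT (m12 IsMul12)
open Pool.Agent.Helper60.QL (nm Cone)
open Pool.Agent.Helper60.RT (R2 cn FR sp Pr prs ctr)

/-- the centre of a box -/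
noncomputable def sc82 (M m i : ℕ) : ℝ := ((i : ℝ) + 1 / 2) / (M : ℝ) ^ m

lemma sc_mem82 {M m i : ℕ} (hM : 1 ≤ M) (hi : i < M ^ m) : 0 < sc82 M m i ∧ sc82 M m i < 1 := by
  have hM0 : (0 : ℝ) < M := by exact_mod_cast hM
  have h1 : (i : ℝ) + 1 ≤ (M : ℝ) ^ m := by exact_mod_cast hi
  unfold sc82
  refine ⟨by positivity, ?_⟩
  rw [div_lt_one (by positivity)]
  linarith

lemma sc_icc82 {M m i : ℕ} (hM : 1 ≤ M) (hi : i < M ^ m) : sc82 M m i ∈ Icc (-1 : ℝ) 2 := by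
  obtain ⟨h1, h2⟩ := sc_mem82 hM hi
  exact ⟨by linarith, by linarith⟩

lemma ctr_bd82 {Q r : ℕ} (hr : r < Q) : |ctr Q r| ≤ 6 := by
  have h1 : (r : ℝ) + 1 ≤ (Q : ℝ) := by exact_mod_cast hr
  have hQ : (0 : ℝ) < Q := by exact_mod_cast (by omega : 0 < Q)
  unfold ctr
  have h2 : 12 * ((r : ℝ) + 1 / 2) / Q ≤ 12 := by
    rw [div_le_iff₀ hQ]
    linarith
  have h3 : 0 ≤ 12 * ((r : ℝ) + 1 / 2) / Q := by positivity
  rw [abs_le]
  constructor <;> linarith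

/-- distance between the centre of a cell and the centre of its parent -/
lemma par82 {M m : ℕ} (hM : 1 ≤ M) (hm : 1 ≤ m) (i : ℕ) :
    |((i : ℝ) + 1 / 2) / (M : ℝ) ^ m - (((i / M : ℕ) : ℝ) + 1 / 2) / (M : ℝ) ^ (m - 1)| ≤ (M : ℝ) / 2 / (M : ℝ) ^ m := by
  have hM0 : (0 : ℝ) < M := by exact_mod_cast hM
  have hM1 : (1 : ℝ) ≤ M := by exact_mod_cast hM
  have e : (M : ℝ) ^ m = (M : ℝ) ^ (m - 1) * M := by
    rw [← pow_succ]; congr 1; omega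
  have hd : (i : ℝ) = (M : ℝ) * ((i / M : ℕ) : ℝ) + ((i % M : ℕ) : ℝ) := by
    exact_mod_cast (Nat.div_add_mod i M).symm
  have hb : ((i % M : ℕ) : ℝ) + 1 ≤ M := by exact_mod_cast Nat.mod_lt i hM
  have hb0 : (0 : ℝ) ≤ ((i % M : ℕ) : ℝ) := Nat.cast_nonneg _
  have hp : (0 : ℝ) < (M : ℝ) ^ (m - 1) := by positivity
  have e2 : ((i : ℝ) + 1 / 2) / (M : ℝ) ^ m - (((i / M : ℕ) : ℝ) + 1 / 2) / (M : ℝ) ^ (m - 1) =
      (((i % M : ℕ) : ℝ) + 1 / 2 - M / 2) / (M : ℝ) ^ m := by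
    rw [hd, e]
    field_simp
    ring
  rw [e2, abs_div, abs_of_pos (by positivity : (0 : ℝ) < (M : ℝ) ^ m)]
  refine div_le_div_of_nonneg_right ?_ (by positivity)
  rw [abs_le]
  constructor <;> linarith

lemma div_lt82 {M m i : ℕ} (hm : 1 ≤ m) (hi : i < M ^ m) : i / M < M ^ (m - 1) := by
  have e : M ^ m = M * M ^ (m - 1) := by
    rw [← pow_succ']; congr 1; omega
  rw [e] at hi
  exact Nat.div_lt_of_lt_mul hi

/-- if the parent is not good then `J` is small -/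
lemma small82 {F : Fam} {B₀ θ : ℝ} (hF : F.Ok B₀) {M m i r : ℕ} (hM : 1 ≤ M) (hm : 1 ≤ m) (hi : i < M ^ m) (hr : r < M ^ m)
    (h : ¬ θ ≤ (M : ℝ) ^ (m - 1) * |F.J (sc82 M (m - 1) (i / M)) (ctr (M ^ (m - 1)) (r / M))|) :
    |F.J (sc82 M m i) (ctr (M ^ m) r)| ≤ M * (θ + 7 * B₀) / (M : ℝ) ^ m := by
  have hM0 : (0 : ℝ) < M := by exact_mod_cast hM
  have hB := hF.B1
  have hi' := div_lt82 hm hi
  have hr' := div_lt82 hm hr
  have e : (M : ℝ) ^ m = (M : ℝ) ^ (m - 1) * M := by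
    rw [← pow_succ]; congr 1; omega
  have hp : (0 : ℝ) < (M : ℝ) ^ (m - 1) := by positivity
  have d1 : |sc82 M m i - sc82 M (m - 1) (i / M)| ≤ (M : ℝ) / 2 / (M : ℝ) ^ m := par82 hM hm i
  have d2 : |ctr (M ^ m) r - ctr (M ^ (m - 1)) (r / M)| ≤ 12 * ((M : ℝ) / 2 / (M : ℝ) ^ m) := by
    have e2 : ctr (M ^ m) r - ctr (M ^ (m - 1)) (r / M) =
        12 * (((r : ℝ) + 1 / 2) / (M : ℝ) ^ m - (((r / M : ℕ) : ℝ) + 1 / 2) / (M : ℝ) ^ (m - 1)) := by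
      unfold ctr
      push_cast
      ring
    rw [e2, abs_mul, abs_of_pos (by norm_num : (0 : ℝ) < 12)]
    exact mul_le_mul_of_nonneg_left (par82 hM hm r) (by norm_num)
  have hl := (hF.lipJ _ (sc_icc82 hM hi) _ (sc_icc82 hM hi') (ctr (M ^ m) r) (ctr (M ^ (m - 1)) (r / M))
    ((ctr_bd82 hr).trans (by norm_num)) ((ctr_bd82 hr').trans (by norm_num))).1
  have h1 : |F.J (sc82 M (m - 1) (i / M)) (ctr (M ^ (m - 1)) (r / M))| ≤ M * θ / (M : ℝ) ^ m := by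
    rw [e, le_div_iff₀ (by positivity)]
    rw [not_le] at h
    nlinarith
  have h2 : B₀ * (|sc82 M m i - sc82 M (m - 1) (i / M)| + |ctr (M ^ m) r - ctr (M ^ (m - 1)) (r / M)|) ≤
      B₀ * (13 * ((M : ℝ) / 2 / (M : ℝ) ^ m)) := mul_le_mul_of_nonneg_left (by linarith) (by linarith)
  have h3 : |F.J (sc82 M m i) (ctr (M ^ m) r)| ≤ |F.J (sc82 M m i) (ctr (M ^ m) r) -
      F.J (sc82 M (m - 1) (i / M)) (ctr (M ^ (m - 1)) (r / M))| + |F.J (sc82 M (m - 1) (i / M)) (ctr (M ^ (m - 1)) (r / M))| := by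
    have := abs_add_le (F.J (sc82 M m i) (ctr (M ^ m) r) - F.J (sc82 M (m - 1) (i / M)) (ctr (M ^ (m - 1)) (r / M)))
      (F.J (sc82 M (m - 1) (i / M)) (ctr (M ^ (m - 1)) (r / M)))
    rwa [sub_add_cancel] at this
  have h4 : M * (θ + 7 * B₀) / (M : ℝ) ^ m = M * θ / (M : ℝ) ^ m + B₀ * (14 * ((M : ℝ) / 2 / (M : ℝ) ^ m)) := by
    field_simp
    ring
  have h5 : 0 ≤ B₀ * ((M : ℝ) / 2 / (M : ℝ) ^ m) := by positivity
  rw [h4]
  linarith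

/-- slopes in the cone -/
lemma cn_tt82 {N : ℕ} {k : ℤ × ℤ} (hk : k ∈ cn N) : 0 < k.1 ∧ |tt 0 k| ≤ 1 := by
  classical
  unfold cn at hk
  rw [Finset.mem_filter] at hk
  obtain ⟨_, h1, h2⟩ := hk
  have h0 : 0 < k.1 := by omega
  refine ⟨h0, ?_⟩
  have h0' : (0 : ℝ) < k.1 := by exact_mod_cast h0
  have h1' : -(k.1 : ℝ) < k.2 := by exact_mod_cast h1
  have h2' : (k.2 : ℝ) ≤ k.1 := by exact_mod_cast h2
  unfold tt uu
  rw [zero_mul, add_zero, abs_div, abs_of_pos h0', div_le_one h0', abs_le]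
  exact ⟨h1'.le, h2'⟩

lemma arc_sl82 {N M m r : ℕ} {k : ℤ × ℤ} (hM : 1 ≤ M) (hk : k ∈ arc 0 (cn N) (M ^ m) r) :
    k ∈ cn N ∧ |tt 0 k - ctr (M ^ m) r| ≤ 6 / (M : ℝ) ^ m := by
  classical
  unfold arc at hk
  rw [Finset.mem_filter] at hk
  obtain ⟨h1, h2⟩ := hk
  refine ⟨h1, ?_⟩
  have hM0 : (0 : ℝ) < M := by exact_mod_cast hM
  obtain ⟨h3, h4⟩ := abs_le.1 (cn_tt82 h1).2
  have h5 : 0 ≤ ((M ^ m : ℕ) : ℝ) * ((tt 0 k + 6) / 12) := by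
    have : 0 ≤ tt 0 k + 6 := by linarith
    positivity
  obtain ⟨h6, h7⟩ := (Nat.floor_eq_iff h5).1 h2
  push_cast at h6 h7
  have hp : (0 : ℝ) < (M : ℝ) ^ m := by positivity
  unfold ctr
  push_cast
  have e : tt 0 k - (12 * ((r : ℝ) + 1 / 2) / (M : ℝ) ^ m - 6) =
      (12 * ((M : ℝ) ^ m * ((tt 0 k + 6) / 12) - r) - 6) / (M : ℝ) ^ m := by
    field_simp
    ring
  rw [e, abs_div, abs_of_pos hp]
  refine div_le_div_of_nonneg_right ?_ hp.le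
  rw [abs_le]
  constructor <;> linarith

lemma ix_lt82 {N M n : ℕ} {k : ℤ × ℤ} (hM : 1 ≤ M) (hk : k ∈ cn N) : ix82 M n (tt 0 k) < M ^ n := by
  obtain ⟨h3, h4⟩ := abs_le.1 (cn_tt82 hk).2
  have hM0 : (0 : ℝ) < M := by exact_mod_cast hM
  unfold ix82
  have hp : (0 : ℝ) < ((M ^ n : ℕ) : ℝ) := by positivity
  rw [Nat.floor_lt (by
    have : 0 ≤ tt 0 k + 6 := by linarith
    positivity)]
  have : (tt 0 k + 6) / 12 < 1 := by linarith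
  calc ((M ^ n : ℕ) : ℝ) * ((tt 0 k + 6) / 12) < ((M ^ n : ℕ) : ℝ) * 1 := mul_lt_mul_of_pos_left this hp
    _ = _ := mul_one _

/-- good arcs -/
lemma gd82 {F : Fam} {B₀ θ : ℝ} (hF : F.Ok B₀) {N M m i r : ℕ} (hM : 1 ≤ M) (hi : i < M ^ m) (hr : r < M ^ m) (hθ : 12 * B₀ ≤ θ)
    (h : θ ≤ (M : ℝ) ^ m * |F.J (sc82 M m i) (ctr (M ^ m) r)|) :
    Gd F (sc82 M m i) (|F.J (sc82 M m i) (ctr (M ^ m) r)| / 2) 4 (arc 0 (cn N) (M ^ m) r) := by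
  intro k hk
  have hM0 : (0 : ℝ) < M := by exact_mod_cast hM
  have hB := hF.B1
  obtain ⟨h1, h2⟩ := arc_sl82 hM hk
  have h3 := (cn_tt82 h1).2
  have hs := sc_icc82 hM hi
  have hl := (hF.lipJ _ hs _ hs (tt 0 k) (ctr (M ^ m) r) (h3.trans (by norm_num)) ((ctr_bd82 hr).trans (by norm_num))).1
  rw [sub_self, abs_zero, zero_add] at hl
  have hp : (0 : ℝ) < (M : ℝ) ^ m := by positivity
  have h4 : B₀ * |tt 0 k - ctr (M ^ m) r| ≤ |F.J (sc82 M m i) (ctr (M ^ m) r)| / 2 := by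
    have h5 : B₀ * |tt 0 k - ctr (M ^ m) r| ≤ B₀ * (6 / (M : ℝ) ^ m) := mul_le_mul_of_nonneg_left h2 (by linarith)
    have h6 : B₀ * (6 / (M : ℝ) ^ m) ≤ |F.J (sc82 M m i) (ctr (M ^ m) r)| / 2 := by
      rw [mul_div_assoc', div_le_iff₀ hp]
      linarith
    exact h5.trans h6
  have h7 := hl.trans h4
  have h8 := abs_sub_abs_le_abs_sub (F.J (sc82 M m i) (tt 0 k)) (F.J (sc82 M m i) (ctr (M ^ m) r))
  have h9 := abs_sub_abs_le_abs_sub (F.J (sc82 M m i) (ctr (M ^ m) r)) (F.J (sc82 M m i) (tt 0 k))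
  rw [abs_sub_comm (F.J (sc82 M m i) (ctr (M ^ m) r)) (F.J (sc82 M m i) (tt 0 k))] at h9
  have h10 := abs_nonneg (F.J (sc82 M m i) (ctr (M ^ m) r))
  constructor <;> linarith

/-- from the interval of half-length `M^(-m)` to the box -/
lemma box_le82 {F : Fam} {B X : ℝ} {S : Finset (ℤ × ℤ)} {M m i : ℕ} {V : ENNReal} (hM : 1 ≤ M)
    (h : RN F (sc82 M m i) (1 / (M : ℝ) ^ m) B X S ≤ V) :
    ∫⁻ s in bx82 M m i, ∫⁻ r in Icc (X / B) (B * X), ENNReal.ofReal (mf F S r s) ≤ V / ((M ^ m : ℕ) : ENNReal) := by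
  have hM0 : (0 : ℝ) < M := by exact_mod_cast hM
  have hp : (0 : ℝ) < (M : ℝ) ^ m := by positivity
  have hN0 : ((M ^ m : ℕ) : ENNReal) ≠ 0 := by
    rw [Nat.cast_ne_zero]
    positivity
  rw [ENNReal.le_div_iff_mul_le (Or.inl hN0) (Or.inl (ENNReal.natCast_ne_top _)), mul_comm]
  refine le_trans ?_ h
  unfold RN
  have e : ENNReal.ofReal (1 / (M : ℝ) ^ m)⁻¹ = ((M ^ m : ℕ) : ENNReal) := by
    rw [one_div, inv_inv, ← ENNReal.ofReal_natCast]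
    push_cast
    rfl
  rw [e]
  refine mul_le_mul' le_rfl (lintegral_mono_set ?_)
  unfold bx82 sc82
  refine Icc_subset_Icc ?_ ?_
  · rw [← sub_div, div_le_div_iff_of_pos_right hp]
    linarith
  · rw [← add_div, div_le_div_iff_of_pos_right hp]
    linarith

end Pool.Agent.Helper60.GM
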