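import Pool.Agent.Helper60.GM.Defs

/-!
# GM, block E2: first good levels (combinatorics)

`G m i r`: the box `i` and the arc `r` of level `m` form a good pair. For indices `i`, `ρ` of the finest level `n`: `lv82` is the first good level, `pc82` the piece (level, arc) which contains `ρ`, `ps82` the set of all pieces of the box `i`.
-/

open MeasureTheory Real Set Filter Topology

set_option autoImplicit false

namespace Pool.Agent.Helper60.GM

open Pool.Agent.Helper92.GC (uu tt arc)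

section lev

open Classical in
/-- first good level of the pair `(i, ρ)` of indices of level `n`; `n + 1` if there is none -/
noncomputable def lv82 (G : ℕ → ℕ → ℕ → Prop) (M ms n i ρ : ℕ) : ℕ :=
  if h : ∃ m, ms ≤ m ∧ m ≤ n ∧ G m (i / M ^ (n - m)) (ρ / M ^ (n - m)) then Nat.find h else n + 1

/-- the piece of `ρ` -/
noncomputable def pc82 (G : ℕ → ℕ → ℕ → Prop) (M ms n i ρ : ℕ) : ℕ × ℕ :=
  (lv82 G M ms n i ρ, ρ / M ^ (n - lv82 G M ms n i ρ))

/-- all the pieces of the box `i` -/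
noncomputable def ps82 (G : ℕ → ℕ → ℕ → Prop) (M ms n i : ℕ) : Finset (ℕ × ℕ) :=
  (Finset.range (M ^ n)).image (pc82 G M ms n i)

variable {G : ℕ → ℕ → ℕ → Prop} {M ms n i ρ : ℕ}

lemma lv_le82 : lv82 G M ms n i ρ ≤ n + 1 := by
  classical
  unfold lv82
  split_ifs with h
  · have := (Nat.find_spec h).2.1
    omega
  · exact le_rfl

lemma lv_good82 (h : lv82 G M ms n i ρ ≤ n) : ms ≤ lv82 G M ms n i ρ ∧
    G (lv82 G M ms n i ρ) (i / M ^ (n - lv82 G M ms n i ρ)) (ρ / M ^ (n - lv82 G M ms n i ρ)) := by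
  classical
  unfold lv82 at h ⊢
  split_ifs at h ⊢ with h1
  · exact ⟨(Nat.find_spec h1).1, (Nat.find_spec h1).2.2⟩
  · omega

lemma lv_bad82 {m : ℕ} (h1 : ms ≤ m) (h2 : m < lv82 G M ms n i ρ) : ¬ G m (i / M ^ (n - m)) (ρ / M ^ (n - m)) := by
  classical
  intro hG
  have hn : m ≤ n := by
    have := lv_le82 (G := G) (M := M) (ms := ms) (n := n) (i := i) (ρ := ρ)
    omega
  have hex : ∃ m, ms ≤ m ∧ m ≤ n ∧ G m (i / M ^ (n - m)) (ρ / M ^ (n - m)) := ⟨m, h1, hn, hG⟩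
  unfold lv82 at h2
  rw [dif_pos hex] at h2
  exact Nat.find_min hex h2 ⟨h1, hn, hG⟩

lemma ms_le_lv82 (hms : ms ≤ n + 1) : ms ≤ lv82 G M ms n i ρ := by
  rcases Nat.lt_or_ge n (lv82 G M ms n i ρ) with h | h
  · omega
  · exact (lv_good82 h).1

/-- the level depends on the arc of the first good level only -/
lemma lv_eq82 {ρ₀ m : ℕ} (hm : lv82 G M ms n i ρ₀ = m)
    (h : ρ / M ^ (n - m) = ρ₀ / M ^ (n - m)) : lv82 G M ms n i ρ = m := by
  have hdiv : ∀ m' : ℕ, m' ≤ m → ρ / M ^ (n - m') = ρ₀ / M ^ (n - m') := by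
    intro m' hm'
    rcases Nat.lt_or_ge n m with hnm | hnm
    · have e : n - m = 0 := by omega
      rw [e, pow_zero, Nat.div_one, Nat.div_one] at h
      rw [h]
    · have e : n - m' = (n - m) + (m - m') := by omega
      rw [e, pow_add, ← Nat.div_div_eq_div_mul, ← Nat.div_div_eq_div_mul, h]
  rcases lt_trichotomy (lv82 G M ms n i ρ) m with h1 | h1 | h1
  · exfalso
    have h2 : lv82 G M ms n i ρ ≤ n := by
      have := lv_le82 (G := G) (M := M) (ms := ms) (n := n) (i := i) (ρ := ρ₀)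
      omega
    obtain ⟨g1, g2⟩ := lv_good82 h2
    rw [hdiv _ h1.le] at g2
    rw [← hm] at h1
    exact lv_bad82 g1 h1 g2
  · exact h1
  · exfalso
    have h2 : lv82 G M ms n i ρ₀ ≤ n := by
      have := lv_le82 (G := G) (M := M) (ms := ms) (n := n) (i := i) (ρ := ρ)
      omega
    obtain ⟨g1, g2⟩ := lv_good82 h2
    rw [hm] at g1 g2
    rw [← h] at g2
    exact lv_bad82 g1 h1 g2

lemma mem_ps82 {p : ℕ × ℕ} : p ∈ ps82 G M ms n i ↔ ∃ ρ₀ < M ^ n, pc82 G M ms n i ρ₀ = p := by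
  unfold ps82
  rw [Finset.mem_image]
  constructor
  · rintro ⟨a, ha, hb⟩
    exact ⟨a, Finset.mem_range.1 ha, hb⟩
  · rintro ⟨a, ha, hb⟩
    exact ⟨a, Finset.mem_range.2 ha, hb⟩

/-- a piece contains `ρ` iff it is the ancestor of `ρ` -/
lemma pc_iff82 {p : ℕ × ℕ} (hp : p ∈ ps82 G M ms n i) :
    pc82 G M ms n i ρ = p ↔ ρ / M ^ (n - p.1) = p.2 := by
  obtain ⟨ρ₀, _, h0⟩ := mem_ps82.1 hp
  unfold pc82 at h0 ⊢
  constructor
  · rintro rfl
    rfl
  · intro h
    have e1 : lv82 G M ms n i ρ₀ = p.1 := by rw [← h0]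
    have e2 : ρ₀ / M ^ (n - p.1) = p.2 := by rw [← e1, ← h0]
    have e3 : lv82 G M ms n i ρ = p.1 := lv_eq82 e1 (h.trans e2.symm)
    rw [e3, h]

/-- what is known about a piece -/
lemma ps_prop82 {p : ℕ × ℕ} (hM : 1 ≤ M) (hms : ms ≤ n + 1) (hp : p ∈ ps82 G M ms n i) :
    ms ≤ p.1 ∧ p.1 ≤ n + 1 ∧ p.2 < M ^ (min p.1 n) ∧ (p.1 ≤ n → G p.1 (i / M ^ (n - p.1)) p.2) ∧
      (ms < p.1 → p.1 ≤ n → ¬ G (p.1 - 1) (i / M ^ (n - p.1) / M) (p.2 / M)) ∧ (ms ≤ n → p.1 = n + 1 → ¬ G n i p.2) := by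
  obtain ⟨ρ₀, h1, h0⟩ := mem_ps82.1 hp
  unfold pc82 at h0
  have e1 : lv82 G M ms n i ρ₀ = p.1 := by rw [← h0]
  have e2 : ρ₀ / M ^ (n - p.1) = p.2 := by rw [← e1, ← h0]
  have hpos : ∀ k : ℕ, 0 < M ^ k := fun k => Nat.pos_of_ne_zero (by positivity)
  refine ⟨by rw [← e1]; exact ms_le_lv82 hms, by rw [← e1]; exact lv_le82, ?_, ?_, ?_, ?_⟩
  · rw [← e2, Nat.div_lt_iff_lt_mul (hpos _), ← pow_add]
    rcases Nat.lt_or_ge n p.1 with h | h
    · have : min p.1 n + (n - p.1) = n := by omega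
      rw [this]
      exact h1
    · have : min p.1 n + (n - p.1) = n := by omega
      rw [this]
      exact h1
  · intro h
    have g := (lv_good82 (G := G) (M := M) (ms := ms) (n := n) (i := i) (ρ := ρ₀) (by rw [e1]; exact h)).2
    rw [e1, e2] at g
    exact g
  · intro h2 h3 hG
    have e : n - (p.1 - 1) = (n - p.1) + 1 := by omega
    have hb := lv_bad82 (G := G) (M := M) (ms := ms) (n := n) (i := i) (ρ := ρ₀) (m := p.1 - 1) (by omega) (by rw [e1]; omega)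
    rw [e, pow_succ, ← Nat.div_div_eq_div_mul, ← Nat.div_div_eq_div_mul, e2] at hb
    exact hb hG
  · intro h2 h3 hG
    have hb := lv_bad82 (G := G) (M := M) (ms := ms) (n := n) (i := i) (ρ := ρ₀) (m := n) h2 (by rw [e1]; omega)
    rw [Nat.sub_self, pow_zero, Nat.div_one, Nat.div_one] at hb
    rw [h3] at e2
    have e : n - (n + 1) = 0 := by omega
    rw [e, pow_zero, Nat.div_one] at e2
    rw [← e2] at hG
    exact hb hG

end lev

/-- the index of an arc of level `m` -/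
noncomputable def ix82 (M m : ℕ) (t : ℝ) : ℕ := ⌊((M ^ m : ℕ) : ℝ) * ((t + 6) / 12)⌋₊

lemma ix_div82 {M m n : ℕ} (hM : 1 ≤ M) (hmn : m ≤ n) (t : ℝ) : ix82 M n t / M ^ (n - m) = ix82 M m t := by
  unfold ix82
  have hM0 : (0 : ℝ) < M := by exact_mod_cast hM
  rw [← Nat.floor_div_natCast]
  congr 1
  have e : n = m + (n - m) := by omega
  conv_lhs => rw [e, Nat.add_sub_cancel_left]
  push_cast
  rw [pow_add]
  field_simp

/-- the fibres of the grouping are arcs -/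
lemma fib82 {G : ℕ → ℕ → ℕ → Prop} {M ms n i : ℕ} {p : ℕ × ℕ} (hM : 1 ≤ M) (S : Finset (ℤ × ℤ))
    (hp : p ∈ ps82 G M ms n i) :
    S.filter (fun k => pc82 G M ms n i (ix82 M n (tt 0 k)) = p) = arc 0 S (M ^ (min p.1 n)) p.2 := by
  unfold arc
  apply Finset.filter_congr
  intro k _
  rw [pc_iff82 hp]
  have e1 : n - p.1 = n - min p.1 n := by omega
  rw [e1, ix_div82 hM (min_le_right _ _)]
  rfl

end Pool.Agent.Helper60.GM
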