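import Pool.Agent.Helper82.GM.Lev

/-!
# GM, block E2: the Whitney sum
-/

open MeasureTheory Real Set Filter Topology

set_option autoImplicit false

namespace Pool.Agent.Helper60.GM

open Pool.Agent.Helper92.GC (uu tt arc)

/-- the box number `i` of level `m` -/
def bx82 (M m i : ℕ) : Set ℝ := Icc ((i : ℝ) / (M : ℝ) ^ m) (((i : ℝ) + 1) / (M : ℝ) ^ m)

lemma seg_sum82 (g : ℝ → ENNReal) {a δ : ℝ} (hδ : 0 ≤ δ) (q : ℕ) :
    ∑ j ∈ Finset.range q, ∫⁻ s in Icc (a + j * δ) (a + (j + 1) * δ), g s = ∫⁻ s in Icc a (a + q * δ), g s := by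
  induction q with
  | zero => simp
  | succ q ih =>
    rw [Finset.sum_range_succ, ih]
    have h1 : ∀ x y : ℝ, ∫⁻ s in Icc x y, g s = ∫⁻ s in Ioc x y, g s := fun x y => by
      rw [Measure.restrict_congr_set Ioc_ae_eq_Icc]
    rw [h1, h1, h1, ← lintegral_union measurableSet_Ioc (Ioc_disjoint_Ioc_of_le le_rfl), Ioc_union_Ioc_eq_Ioc]
    · push_cast
      rfl
    · have : 0 ≤ (q : ℝ) * δ := by positivity
      linarith
    · nlinarith

lemma ch82 (g : ℝ → ENNReal) {M m n : ℕ} (hM : 1 ≤ M) (hmn : m ≤ n) (i : ℕ) :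
    ∑ j ∈ Finset.range (M ^ (n - m)), ∫⁻ s in bx82 M n (i * M ^ (n - m) + j), g s = ∫⁻ s in bx82 M m i, g s := by
  have hM0 : (0 : ℝ) < M := by exact_mod_cast hM
  have e : (M : ℝ) ^ n = (M : ℝ) ^ m * (M : ℝ) ^ (n - m) := by
    rw [← pow_add]; congr 1; omega
  have h := seg_sum82 g (a := (i : ℝ) / (M : ℝ) ^ m) (δ := 1 / (M : ℝ) ^ n) (by positivity) (M ^ (n - m))
  have e2 : (i : ℝ) / (M : ℝ) ^ m + ((M ^ (n - m) : ℕ) : ℝ) * (1 / (M : ℝ) ^ n) = ((i : ℝ) + 1) / (M : ℝ) ^ m := by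
    push_cast
    rw [e]
    field_simp
  rw [e2] at h
  unfold bx82
  rw [← h]
  refine Finset.sum_congr rfl fun j _ => ?_
  have e3 : (((i * M ^ (n - m) + j : ℕ) : ℝ)) / (M : ℝ) ^ n = (i : ℝ) / (M : ℝ) ^ m + j * (1 / (M : ℝ) ^ n) := by
    push_cast
    rw [e]
    field_simp
  have e4 : (((i * M ^ (n - m) + j : ℕ) : ℝ) + 1) / (M : ℝ) ^ n = (i : ℝ) / (M : ℝ) ^ m + (j + 1) * (1 / (M : ℝ) ^ n) := by
    push_cast
    rw [e]
    field_simp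
    ring
  rw [e3, e4]

lemma all82 (g : ℝ → ENNReal) {M : ℕ} (hM : 1 ≤ M) (n : ℕ) :
    ∫⁻ s in Icc (0 : ℝ) 1, g s = ∑ i ∈ Finset.range (M ^ n), ∫⁻ s in bx82 M n i, g s := by
  have h := ch82 g hM (Nat.zero_le n) 0
  rw [Nat.sub_zero] at h
  have e : bx82 M 0 0 = Icc (0 : ℝ) 1 := by
    unfold bx82
    norm_num
  rw [e] at h
  rw [← h]
  refine Finset.sum_congr rfl fun j _ => ?_
  rw [Nat.zero_mul, Nat.zero_add]

lemma sum_mul82 {α : Type*} [AddCommMonoid α] (F : ℕ → α) (a q : ℕ) :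
    ∑ i ∈ Finset.range (a * q), F i = ∑ i ∈ Finset.range a, ∑ j ∈ Finset.range q, F (i * q + j) := by
  induction a with
  | zero => simp
  | succ a ih => rw [Nat.succ_mul, Finset.sum_range_add, ih, Finset.sum_range_succ]

/-- sum over the pieces of a box, by levels -/
lemma sum_ps82 {G : ℕ → ℕ → ℕ → Prop} {M ms n i : ℕ} (hM : 1 ≤ M) (hms : ms ≤ n) {A : ℕ → ℕ → Finset ℕ}
    (hA : ∀ p ∈ ps82 G M ms n i, p.2 ∈ A p.1 (i / M ^ (n - p.1))) (h : ℕ → ℕ → ENNReal) :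
    ∑ p ∈ ps82 G M ms n i, h p.1 p.2 ≤ ∑ m ∈ Finset.Icc ms (n + 1), ∑ r ∈ A m (i / M ^ (n - m)), h m r := by
  classical
  rw [← Finset.sum_fiberwise_of_maps_to (s := ps82 G M ms n i) (t := Finset.Icc ms (n + 1)) (g := Prod.fst)
    (fun p hp => by
      obtain ⟨h1, h2, _⟩ := ps_prop82 hM (by omega) hp
      exact Finset.mem_Icc.2 ⟨h1, h2⟩)]
  refine Finset.sum_le_sum fun m _ => ?_
  have hsub : (ps82 G M ms n i).filter (fun p => p.1 = m) ⊆ (A m (i / M ^ (n - m))).image (Prod.mk m) := by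
    intro p hp
    rw [Finset.mem_filter] at hp
    obtain ⟨h1, h2⟩ := hp
    have h3 := hA p h1
    rw [h2] at h3
    exact Finset.mem_image.2 ⟨p.2, h3, by rw [← h2]⟩
  refine (Finset.sum_le_sum_of_subset hsub).trans (le_of_eq ?_)
  rw [Finset.sum_image (fun x _ y _ hxy => (Prod.mk.injEq _ _ _ _ ▸ hxy).2)]

/-- number of pieces -/
lemma card_ps82 {G : ℕ → ℕ → ℕ → Prop} {M ms n i Q₀ : ℕ} (hM : 1 ≤ M) (hms : ms ≤ n) {A : ℕ → ℕ → Finset ℕ}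
    (hA : ∀ p ∈ ps82 G M ms n i, p.2 ∈ A p.1 (i / M ^ (n - p.1)))
    (hQ : ∀ m, ms ≤ m → m ≤ n + 1 → (A m (i / M ^ (n - m))).card ≤ Q₀) :
    (ps82 G M ms n i).card ≤ (n + 2) * Q₀ := by
  classical
  have hsub : ps82 G M ms n i ⊆ (Finset.Icc ms (n + 1)).biUnion (fun m => (A m (i / M ^ (n - m))).image (Prod.mk m)) := by
    intro p hp
    obtain ⟨h1, h2, _⟩ := ps_prop82 hM (by omega) hp
    exact Finset.mem_biUnion.2 ⟨p.1, Finset.mem_Icc.2 ⟨h1, h2⟩, Finset.mem_image.2 ⟨p.2, hA p hp, rfl⟩⟩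
  refine (Finset.card_le_card hsub).trans (Finset.card_biUnion_le.trans ?_)
  calc ∑ m ∈ Finset.Icc ms (n + 1), ((A m (i / M ^ (n - m))).image (Prod.mk m)).card
      ≤ ∑ m ∈ Finset.Icc ms (n + 1), Q₀ := by
        refine Finset.sum_le_sum fun m hm => Finset.card_image_le.trans ?_
        rw [Finset.mem_Icc] at hm
        exact hQ m hm.1 hm.2
    _ = (n + 1 + 1 - ms) * Q₀ := by rw [Finset.sum_const, Nat.card_Icc, smul_eq_mul]
    _ ≤ (n + 2) * Q₀ := Nat.mul_le_mul_right _ (by omega)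

/-- **the Whitney sum** -/
theorem whit82 {f : Finset (ℤ × ℤ) → ℝ → ENNReal} {G : ℕ → ℕ → ℕ → Prop} {M ms n Q₀ : ℕ} {S : Finset (ℤ × ℤ)}
    (hM : 1 ≤ M) (hms : ms ≤ n) {A : ℕ → ℕ → Finset ℕ}
    (hA : ∀ i < M ^ n, ∀ p ∈ ps82 G M ms n i, p.2 ∈ A p.1 (i / M ^ (n - p.1)))
    (hQ : ∀ m, ms ≤ m → m ≤ n + 1 → ∀ i < M ^ (min m n), (A m i).card ≤ Q₀) {V : ENNReal}
    (hV : ∀ m, ms ≤ m → m ≤ n + 1 → ∀ i < M ^ (min m n), ∀ r ∈ A m i,
      ∫⁻ s in bx82 M (min m n) i, f (arc 0 S (M ^ (min m n)) r) s ≤ V / ((M ^ (min m n) : ℕ) : ENNReal))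
    (hfib : ∀ i < M ^ n, ∀ (g : ℤ × ℤ → ℕ × ℕ) (P : Finset (ℕ × ℕ)), (∀ k ∈ S, g k ∈ P) →
      ∫⁻ s in bx82 M n i, f S s ≤ ENNReal.ofReal ((P.card : ℝ) ^ 11) *
        ∑ p ∈ P, ∫⁻ s in bx82 M n i, f (S.filter (fun k => g k = p)) s)
    (hix : ∀ k ∈ S, ix82 M n (tt 0 k) < M ^ n) :
    ∫⁻ s in Icc (0 : ℝ) 1, f S s ≤ ENNReal.ofReal ((((n + 2) * Q₀ : ℕ) : ℝ) ^ 11) * ((((n + 2) * Q₀ : ℕ) : ENNReal) * V) := by
  have hpos : ∀ k : ℕ, 0 < M ^ k := fun k => Nat.pos_of_ne_zero (by positivity)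
  have hdiv : ∀ m i : ℕ, i < M ^ n → i / M ^ (n - m) < M ^ (min m n) := by
    intro m i hi
    rw [Nat.div_lt_iff_lt_mul (hpos _), ← pow_add]
    have : min m n + (n - m) = n := by omega
    rw [this]
    exact hi
  have hone : ∀ i < M ^ n, ∫⁻ s in bx82 M n i, f S s ≤ ENNReal.ofReal ((((n + 2) * Q₀ : ℕ) : ℝ) ^ 11) *
      ∑ m ∈ Finset.Icc ms (n + 1), ∑ r ∈ A m (i / M ^ (n - m)), ∫⁻ s in bx82 M n i, f (arc 0 S (M ^ (min m n)) r) s := by
    intro i hi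
    have h1 := hfib i hi (fun k => pc82 G M ms n i (ix82 M n (tt 0 k))) (ps82 G M ms n i)
      (fun k hk => mem_ps82.2 ⟨_, hix k hk, rfl⟩)
    have h2 : ∑ p ∈ ps82 G M ms n i, ∫⁻ s in bx82 M n i, f (S.filter (fun k => pc82 G M ms n i (ix82 M n (tt 0 k)) = p)) s =
        ∑ p ∈ ps82 G M ms n i, ∫⁻ s in bx82 M n i, f (arc 0 S (M ^ (min p.1 n)) p.2) s :=
      Finset.sum_congr rfl fun p hp => by rw [fib82 hM S hp]
    rw [h2] at h1
    refine h1.trans (mul_le_mul' (ENNReal.ofReal_le_ofReal ?_) ?_)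
    · have h3 := card_ps82 (Q₀ := Q₀) hM hms (hA i hi) (fun m hm hm' => hQ m hm hm' _ (hdiv m i hi))
      exact pow_le_pow_left₀ (by positivity) (by exact_mod_cast h3) 11
    · exact sum_ps82 hM hms (hA i hi) (fun m r => ∫⁻ s in bx82 M n i, f (arc 0 S (M ^ (min m n)) r) s)
  rw [all82 (fun s => f S s) hM n]
  refine (Finset.sum_le_sum fun i hi => hone i (Finset.mem_range.1 hi)).trans ?_
  rw [← Finset.mul_sum]
  refine mul_le_mul' le_rfl ?_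
  rw [Finset.sum_comm]
  have hlev : ∀ m ∈ Finset.Icc ms (n + 1), ∑ i ∈ Finset.range (M ^ n), ∑ r ∈ A m (i / M ^ (n - m)),
      ∫⁻ s in bx82 M n i, f (arc 0 S (M ^ (min m n)) r) s ≤ (Q₀ : ENNReal) * V := by
    intro m hm
    rw [Finset.mem_Icc] at hm
    obtain ⟨a, ha⟩ : ∃ a : ℕ, a = min m n := ⟨_, rfl⟩
    have hq : n - m = n - a := by omega
    have e : M ^ n = M ^ a * M ^ (n - a) := by
      rw [← pow_add]; congr 1; omega
    rw [← ha, hq]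
    nth_rewrite 1 [e]
    rw [sum_mul82]
    have h1 : ∀ i ∈ Finset.range (M ^ a), ∑ j ∈ Finset.range (M ^ (n - a)), ∑ r ∈ A m ((i * M ^ (n - a) + j) / M ^ (n - a)),
        ∫⁻ s in bx82 M n (i * M ^ (n - a) + j), f (arc 0 S (M ^ a) r) s ≤ (Q₀ : ENNReal) * (V / ((M ^ a : ℕ) : ENNReal)) := by
      intro i hi
      rw [Finset.mem_range] at hi
      have h2 : ∀ j ∈ Finset.range (M ^ (n - a)), ∑ r ∈ A m ((i * M ^ (n - a) + j) / M ^ (n - a)),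
          ∫⁻ s in bx82 M n (i * M ^ (n - a) + j), f (arc 0 S (M ^ a) r) s =
          ∑ r ∈ A m i, ∫⁻ s in bx82 M n (i * M ^ (n - a) + j), f (arc 0 S (M ^ a) r) s := by
        intro j hj
        rw [Finset.mem_range] at hj
        have : (i * M ^ (n - a) + j) / M ^ (n - a) = i := by
          rw [Nat.mul_comm, Nat.mul_add_div (hpos _), Nat.div_eq_of_lt hj, Nat.add_zero]
        rw [this]
      rw [Finset.sum_congr rfl h2, Finset.sum_comm]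
      have h3 : ∀ r ∈ A m i, ∑ j ∈ Finset.range (M ^ (n - a)), ∫⁻ s in bx82 M n (i * M ^ (n - a) + j), f (arc 0 S (M ^ a) r) s ≤
          V / ((M ^ a : ℕ) : ENNReal) := by
        intro r hr
        rw [ch82 (fun s => f (arc 0 S (M ^ a) r) s) hM (by omega) i]
        have h4 := hV m hm.1 hm.2 i (by rw [← ha]; exact hi) r hr
        rw [← ha] at h4
        exact h4
      refine (Finset.sum_le_sum h3).trans ?_
      rw [Finset.sum_const, nsmul_eq_mul]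
      refine mul_le_mul' ?_ le_rfl
      exact_mod_cast hQ m hm.1 hm.2 i (by rw [← ha]; exact hi)
    refine (Finset.sum_le_sum h1).trans ?_
    rw [Finset.sum_const, Finset.card_range, nsmul_eq_mul]
    calc ((M ^ a : ℕ) : ENNReal) * ((Q₀ : ENNReal) * (V / ((M ^ a : ℕ) : ENNReal)))
        = (Q₀ : ENNReal) * (((M ^ a : ℕ) : ENNReal) * (V / ((M ^ a : ℕ) : ENNReal))) := by ring
      _ ≤ (Q₀ : ENNReal) * V := mul_le_mul' le_rfl ENNReal.mul_div_le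
  refine (Finset.sum_le_sum hlev).trans ?_
  rw [Finset.sum_const, Nat.card_Icc, nsmul_eq_mul, ← mul_assoc]
  refine mul_le_mul' ?_ le_rfl
  rw [← Nat.cast_mul]
  exact_mod_cast Nat.mul_le_mul_right _ (by omega)

end Pool.Agent.Helper60.GM
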